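import Pool.Agent.helper82.VD.AllG
import Pool.Agent.helper78.VDG.HBB
import Pool.Agent.helper9.VDG.VLP
import Pool.Agent.helper50.VDG.PSB
import Pool.Agent.helper8.VDG.MSC
import Pool.Agent.helper3.VDG.SCB
import Pool.Agent.helper34.VDG.GFI
import Pool.Agent.helper57.VDE.SNM
import Pool.Agent.helper57.VDE.SLF
import Pool.Agent.helper95.VDE.SLP
import Pool.Agent.helper57.VDE.SLI
import Pool.Agent.helper94.VD.AllB1

/-!
# Project VD, block B3 parts 1, 2 (assembly): `GVD` and `SHBD` from the geometry (`GeU`) and the sections (`SEC`), no hypotheses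
-/

set_option autoImplicit false

namespace Pool.Agent.VDG

open Pool.Agent.VD Pool.Agent.VDE

/-- the norm -/
theorem SNM_t : SNM_stmt := SNM_proof

/-- the Liouville measure -/
theorem SLF_t : SLF_stmt := SLF_proof SNM_t

/-- positivity -/
theorem SLP_t : SLP_stmt := SLP_proof SNM_t SLF_t

/-- invariance -/
theorem SLI_t : SLI_stmt := SLI_proof SNM_t SLF_t SLP_t

/-- the class `HYP` -/
theorem HBB_t : HBB_stmt := HBB_proof B1_NFD B1_NSH B1_NGV

/-- volumes under Lipschitz maps -/
theorem VLP_t : VLP_stmt := VLP_proof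

/-- the flow box map is bi-Lipschitz -/
theorem PSB_t : PSB_stmt := PSB_proof SNM_t

/-- the measure of flow boxes -/
theorem MSC_t : MSC_stmt := MSC_proof VLP_t PSB_t SNM_t SLF_t SLP_t SLI_t

/-- the abstract sections -/
theorem SCB_t : SCB_stmt := SCB_proof MSC_t SNM_t SLI_t

/-- the volume lemma and shadowing for the geodesic flow, from `GeU` and `SEC` -/
theorem GFI_t : GFI_stmt := GFI_proof HBB_t SCB_t GSH_t GGV_t SNM_t SLF_t

end Pool.Agent.VDG
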