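import Pool.Agent.helper43.VDG.GSH
import Pool.Agent.helper69.VDG.GDR
import Pool.Agent.helper87.VDG.GIN
import Pool.Agent.helper3.VDG.GOU
import Pool.Agent.helper78.VDG.GSB
import Pool.Agent.helper94.VDG.GGV

/-!
# Project VD, block B3 part 1 (assembly): shadowing `GSH_t`, volume lemma `GGV_t`
-/

set_option autoImplicit false

namespace Pool.Agent.VDG

/-- shadowing of pseudo-orbits -/
theorem GSH_t : GSH_stmt := GSH_proof

/-- no drift -/
theorem GDR_t : GDR_stmt := GDR_proof

/-- flow boxes are in Bowen balls -/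
theorem GIN_t : GIN_stmt := GIN_proof GDR_t

/-- Bowen balls are in flow boxes -/
theorem GOU_t : GOU_stmt := GOU_proof GDR_t

/-- section Bowen balls -/
theorem GSB_t : GSB_stmt := GSB_proof

/-- the volume lemma -/
theorem GGV_t : GGV_stmt := GGV_proof GDR_t GIN_t GOU_t GSB_t

end Pool.Agent.VDG
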