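import Pool.Agent.helper82.VD.SpecH
import Pool.Agent.helper94.VD.B1X
import Pool.Agent.helper93.VD.SpecB4a

/-!
# MP_07c750 (QUE, weight 10), project VD (all dimensions), block B3 part 4: UNIFORM volume lemma (both directions), VERTICAL DISCS (inputs of helper93's large deviations B4)

All constants are UNIFORM: they are chosen before the space `S`, the flow and the sections. The Poincaré maps along the orbit of `y = κ z a0` are composed starting in the section at `z` (not at `y`): `orz`; `a0 = 0` is the sequence `orb` of `SpecG`.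
RULES. Row `vdg:XXX`: file `Pool/Agent/<seat>/VDG/XXX.lean`, `import Pool.Agent.helper82.VD.SpecJ`, `set_option autoImplicit false`, namespace `Pool.Agent.VDG`, `open Pool.Agent.VD Pool.Agent.VDE MeasureTheory Filter Set Topology`, `open scoped ENNReal`, auxiliary lemmas prefixed `XXX_`,
theorem `XXX_proof : XXX_stmt` (rows listed in `from` may be used as hypotheses `(h : YYY_stmt)`). No `convert`, `congr!`, `native_decide`, no double quotes, no `private`, no `#` commands. The rows GSH GDR GIN GOU GSB GGV (abstract, not uniform) are proved: copy and adapt (`Pool/Agent/{helper43,helper69,helper87,helper3,helper78,helper94}/VDG`).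
-/

set_option autoImplicit false

open MeasureTheory Filter Set Topology Pool.Agent.VDE Pool.Agent.VD
open scoped ENNReal

namespace Pool.Agent.VDG

noncomputable section

/-- more about the class of hyperbolic maps: the volume lemma in the other direction, vertical discs, boundary values -/
structure HB2 {m : ℕ} (H : (EE m → EE m) → Prop) (C ν ρ0 : ℝ) : Prop where
  hb : HB H C ρ0
  hν : 0 < ν
  gvu : ∀ ρ' ρ : ℝ, 0 < ρ' → ρ' ≤ ρ0 → 0 < ρ → ρ ≤ ρ0 → ∃ C' : ℝ, 0 < C' ∧ ∀ (n k : ℕ) (F : ℕ → EE m → EE m), (∀ i < n + k, H (F i) ∧ F i 0 = 0) →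
    volume (SB F (n + k) ρ) ≤ ENNReal.ofReal C' * (volume (SB F n ρ') * volume (SB (fun i => F (n + i)) k ρ'))
  dsc : ∀ ρ' ρ : ℝ, 0 < ρ' → ρ' ≤ ρ0 → 0 < ρ → ρ ≤ ρ0 → ∃ C' : ℝ, 0 < C' ∧ ∀ (n : ℕ) (F : ℕ → EE m → EE m), (∀ i < n, H (F i) ∧ F i 0 = 0) →
    volume {w : EuclideanSpace ℝ (Fin m) | ((0, w) : EE m) ∈ SB F n ρ} ≤ ENNReal.ofReal C' * volume (SB F n ρ') ∧
    volume (SB F n ρ) ≤ ENNReal.ofReal C' * volume {w : EuclideanSpace ℝ (Fin m) | ((0, w) : EE m) ∈ SB F n ρ'}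
  nbd : ∀ (n : ℕ) (F : ℕ → EE m → EE m) (a b : ℕ → EE m), 1 ≤ n → (∀ i < n, H (F i)) → (∀ i < n, a (i + 1) = F i (a i)) → (∀ i < n, b (i + 1) = F i (b i)) → (∀ i ≤ n, ‖a i‖ ≤ ρ0) → (∀ i ≤ n, ‖b i‖ ≤ ρ0) →
    ∀ k ≤ n, ‖a k - b k‖ ≤ C * (Real.exp (-(ν * k)) * ‖(a 0 - b 0).1‖ + Real.exp (-(ν * (n - k))) * ‖(a n - b n).1‖)

/-- recentering: from the class `H` to the class `H'` -/
structure RCN {m : ℕ} (H H' : (EE m → EE m) → Prop) (ρ0 : ℝ) : Prop where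
  self : ∀ F : EE m → EE m, H F → H' F
  rc : ∀ (F : EE m → EE m) (p : EE m), H F → ‖p‖ ≤ ρ0 → H' (fun u => F (p + u) - F p)

/-- sections, with Lipschitz estimates -/
structure Sct2 {S : Type} [MeasurableSpace S] {m : ℕ} (μ : Measure S) (d : S → S → ℝ) (f : ℝ → S → S) (H : (EE m → EE m) → Prop) (C e : ℝ) (κ : S → EE m → S) (F : S → S → EE m → EE m) (τ : S → S → EE m → ℝ) : Prop where
  sct : Sct μ d f H C e κ F τ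
  kl2 : ∀ (z : S) (a b : EE m), ‖a‖ ≤ e → ‖b‖ ≤ e → d (κ z a) (κ z b) ≤ C * ‖a - b‖
  inj2 : ∀ (z : S) (a a' : EE m) (s s' : ℝ), ‖a‖ ≤ e → ‖a'‖ ≤ e → |s| ≤ e → |s'| ≤ e → ‖a - a'‖ + |s - s'| ≤ C * d (f s (κ z a)) (f s' (κ z a'))
  tl : ∀ z z' : S, d (f 1 z) z' ≤ e → ∀ a b : EE m, ‖a‖ ≤ e → ‖b‖ ≤ e → |τ z z' a - τ z z' b| ≤ C * ‖a - b‖

/-- the Poincaré maps along the orbit of `κ z a0`; the first one starts in the section at `z`, recentered at `a0` -/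
def orz {S : Type} {m : ℕ} (f : ℝ → S → S) (κ : S → EE m → S) (F : S → S → EE m → EE m) (z : S) (a0 : EE m) : ℕ → EE m → EE m
  | 0 => fun u => F z (f 1 (κ z a0)) (a0 + u)
  | i + 1 => orb f F (κ z a0) (i + 1)

/-- the part `{a | a - a0 ∈ SB _ n ρ}` of the section at `z` -/
def SZ {S : Type} {m : ℕ} (f : ℝ → S → S) (κ : S → EE m → S) (F : S → S → EE m → EE m) (z : S) (a0 : EE m) (n : ℕ) (ρ : ℝ) : Set (EE m) := {a | a - a0 ∈ SB (orz f κ F z a0) n ρ}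

/-! ## 1. Hyperbolic maps (PURE) -/

/-- **Row HBC** (`HYP` satisfies `HB2`; short-medium; PURE; from HBB, NRC, NBD of SpecB1 and NGU, NDV of helper94's B1X). `H' = HYP c C (e0/2)`. `RCN`: NRC (`q = F p`; for `self`: `p = 0`, `q = 0`). All maps beyond the index `n + k` (or `n`) are replaced by `F 0` (if there is one; otherwise the statement is about balls), as in HBB (helper78/VDG/HBB.lean).
`gvu`: NGU. `dsc`: NDV with `x = 0`. `nbd`: NBD with `ε = 0`. -/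
def HBC_stmt : Prop := ∀ (m : ℕ) (c C e0 : ℝ), 0 < c → 1 ≤ C → 0 < e0 → ∃ C1 ν ρ0 : ℝ, ρ0 ≤ e0 / 4 ∧ HB2 (HYP (m := m) c C (e0 / 2)) C1 ν ρ0 ∧ RCN (HYP (m := m) c C e0) (HYP (m := m) c C (e0 / 2)) ρ0

/-- **Row GSX** (section Bowen balls: changing the length; short; PURE; from GSB). For maps fixing `0`: `SB F n ρ` is closed for `ρ ≤ ρ0` and `vol(SB F n ρ) ≤ C' vol(SB F (n+j) ρ')` for `j ≤ 3` (`gva` with `k = j`; `SB _ j ρ` contains a ball of radius `ρ/C³`, `lip`; if `ρ < ρ'` first replace `ρ'` by `min ρ ρ'`); also `SB F (n+j) ρ ⊆ SB F n ρ`, `SB F n ρ ⊆ SB F n ρ'` for `ρ ≤ ρ'`. -/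
def GSX_stmt : Prop := ∀ {m : ℕ} (H : (EE m → EE m) → Prop) (C1 ρ0 : ℝ), HB H C1 ρ0 → ∀ ρ' ρ : ℝ, 0 < ρ' → ρ' ≤ ρ0 → 0 < ρ → ρ ≤ ρ0 → ∃ C' : ℝ, 0 < C' ∧ ∀ (n j : ℕ) (F : ℕ → EE m → EE m), j ≤ 3 → (∀ i, H (F i) ∧ F i 0 = 0) →
  IsClosed (SB F n ρ) ∧ volume (SB F n ρ) ≤ ENNReal.ofReal C' * volume (SB F (n + j) ρ') ∧ volume (SB F n ρ) < ⊤

/-! ## 2. The flow -/

/-- **Row SCC** (THE ABSTRACT SECTIONS with Lipschitz estimates; medium; copy of SCB (helper3/VDG/SCB.lean) with three more fields; from MSC, SLI, SNM, SLF). `kl2`: `cmp`. `inj2`: `inj`. `tl`: `pmap`. -/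
def SCC_stmt : Prop := ∀ (m : ℕ) (r1 c C e0 e1 : ℝ), 0 < r1 → 1 ≤ C → 0 < e0 → 0 < e1 → ∃ C' e' : ℝ, 1 ≤ C' ∧ 0 < e' ∧ e' ≤ e0 ∧ e' ≤ e1 ∧ ∀ (Γ : Type) [Group Γ] [MulAction Γ (V (m + 1))] (K F0 : Set (V (m + 1))) (G : V (m + 1) → V (m + 1) →L[ℝ] V (m + 1)) (Φ : ℝ → P (m + 1) → P (m + 1)) (dd : P (m + 1) → P (m + 1) → ℝ) (κ : P (m + 1) → EE m → P (m + 1)),
  GeU Γ K F0 G Φ r1 C dd → SEC c C e0 e1 {p | nrm G p = 1} dd Φ κ → ∃ (f : ℝ → Shl G → Shl G) (κ' : Shl G → EE m → Shl G) (F : Shl G → Shl G → EE m → EE m) (τ : Shl G → Shl G → EE m → ℝ),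
  (∀ (t : ℝ) (x : Shl G), (f t x).1 = Φ t x.1) ∧ (∀ (z : Shl G) (a : EE m), ‖a‖ ≤ e1 → (κ' z a).1 = κ z.1 a) ∧ Sct2 (muS G) (fun x y => dd x.1 y.1) f (HYP c C e0) C' e' κ' F τ

/-- **Row GZD** (no drift; medium; adapt GDR). `e2` small: `2 e2 ≤ min e ρ0`, `C² e2 ≤ e`, `C (e2² + C² e2) ≤ e`, `C · C² e2 + C1 e2 ≤ e`. `y0 = κ z a0`, `y1 = f 1 y0`: `d (f 1 z) y1 ≤ C · C ‖a0‖ ≤ e` (`lp`, `kl`). FIRST MAP: `κ y1 (F z y1 a0) = f (τ z y1 a0) y0 = f (τ z y1 a0 - 1) (κ y1 0)`, `‖F z y1 a0‖ ≤ ‖F z y1 0‖ + C1 ‖a0‖ ≤ e` (`po0`; `lip` of `H'` for `F ∈ H ⊆ H'`), `|τ z y1 a0 - 1| ≤ e`: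
by `inj` `F z y1 a0 = 0` and `τ z y1 a0 = 1`. So `orz 0 = F (a0 + ·) - F a0 ∈ H'` fixes `0` (`rc`); the others are `orb f F y0 i`, `i ≥ 1`, in `H ⊆ H'`, and fix `0` (`po0`, `fa`, `dz`). `T 0 = 0`, `T 1 = τ z y1 (a0 + u)`, `|T 1 - 1| = |τ z y1 (a0 + u) - τ z y1 a0| ≤ C ρ` (`tl`), `T (i+1) = T i + τ y_i y_(i+1) (itr _ i u)`;
`|T i - i| ≤ C ρ + C Σ_(1 ≤ l < i) ‖itr _ l u‖² ≤ C ρ + 2 C C1 ρ²` (`qs`, telescoping from `l = 1`). -/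
def GZD_stmt : Prop := ∀ (C e C1 ρ0 : ℝ), 1 ≤ C → 0 < e → 1 ≤ C1 → 0 < ρ0 → ∃ e2 C2 : ℝ, 0 < e2 ∧ 2 * e2 ≤ e ∧ 2 * e2 ≤ ρ0 ∧ 1 ≤ C2 ∧ ∀ {S : Type} [MeasurableSpace S] {m : ℕ} (μ : Measure S) (d : S → S → ℝ) (f : ℝ → S → S) (H H' : (EE m → EE m) → Prop) (κ : S → EE m → S) (F : S → S → EE m → EE m) (τ : S → S → EE m → ℝ),
  Sct2 μ d f H C e κ F τ → HB H' C1 ρ0 → RCN H H' ρ0 → ∀ (z : S) (a0 : EE m), ‖a0‖ ≤ e2 → d (f 1 z) (f 1 (κ z a0)) ≤ e ∧ τ z (f 1 (κ z a0)) a0 = 1 ∧ (∀ i : ℕ, H' (orz f κ F z a0 i) ∧ orz f κ F z a0 i 0 = 0) ∧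
  ∀ (n : ℕ) (ρ : ℝ) (u : EE m), ρ ≤ e2 → u ∈ SB (orz f κ F z a0) n ρ → ∃ T : ℕ → ℝ, T 0 = 0 ∧ ∀ i ≤ n, |T i - i| ≤ C2 * ρ ∧ (1 ≤ i → f (T i) (κ z (a0 + u)) = κ (f i (κ z a0)) (itr (orz f κ F z a0) i u))

/-- **Row GZI** (flow boxes are in Bowen balls; short-medium; from GZD; adapt GIN). As GIN; for `t < 1`: `d (f t y0) (f t (f s (κ z (a0+u)))) ≤ d (f t (κ z a0)) (f t (κ z (a0 + u))) + d (·) (f s (·)) ≤ C · C ‖u‖ + C |s|` (`lp`, `kl2`, `tt`); for `t = i + r`, `i ≥ 1`: GZD. -/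
def GZI_stmt : Prop := ∀ (C e C1 ρ0 : ℝ), 1 ≤ C → 0 < e → 1 ≤ C1 → 0 < ρ0 → ∃ e2 ρ1 C3 : ℝ, 0 < e2 ∧ 2 * e2 ≤ e ∧ 2 * e2 ≤ ρ0 ∧ 0 < ρ1 ∧ ρ1 ≤ e2 ∧ 1 ≤ C3 ∧ ∀ {S : Type} [MeasurableSpace S] {m : ℕ} (μ : Measure S) (d : S → S → ℝ) (f : ℝ → S → S) (H H' : (EE m → EE m) → Prop) (κ : S → EE m → S) (F : S → S → EE m → EE m) (τ : S → S → EE m → ℝ),
  Sct2 μ d f H C e κ F τ → HB H' C1 ρ0 → RCN H H' ρ0 → ∀ (z : S) (a0 : EE m), ‖a0‖ ≤ e2 → ∀ (n : ℕ) (ρ : ℝ), 0 ≤ ρ → ρ ≤ ρ1 → bxs f κ z (SZ f κ F z a0 n ρ) ρ ⊆ BB d f n (κ z a0) (C3 * ρ)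

/-- **Row GZO** (Bowen balls are in flow boxes; medium; from GZD; adapt GOU). `y ∈ BB n y0 ε`: `d z y ≤ C ‖a0‖ + ε ≤ e`, so `y = f s (κ z a)` (`bx`), `‖a‖, |s| ≤ e`, and by `inj2` `‖a - a0‖ + |s| ≤ C d (f s (κ z a)) (f 0 (κ z a0)) ≤ C ε`. For `1 ≤ i ≤ n` `f i y = f (s i) (κ y_i (b i))`, `‖b i‖, |s i| ≤ C ε` (`bx` at `y_i = f i y0`). As in GOU (with `inj`):
`F z y1 a = b 1` (`κ y1 (F z y1 a) = f (τ z y1 a - s) y = f (τ z y1 a - s - 1 + s 1) (κ y1 (b 1))`, `|τ z y1 a - 1| = |τ z y1 a - τ z y1 a0| ≤ C² ε`), `orb _ _ y0 i (b i) = b (i+1)` for `1 ≤ i < n`. So `itr _ i (a - a0) = b i`: first claim. SECOND CLAIM: by the first claim `κ z a = f s' (κ z a')` with `a' ∈ SZ`; `inj` gives `a = a'`. -/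
def GZO_stmt : Prop := ∀ (C e C1 ρ0 : ℝ), 1 ≤ C → 0 < e → 1 ≤ C1 → 0 < ρ0 → ∃ e2 ε1 C3 : ℝ, 0 < e2 ∧ 2 * e2 ≤ e ∧ 2 * e2 ≤ ρ0 ∧ 0 < ε1 ∧ 1 ≤ C3 ∧ C3 * ε1 ≤ e2 ∧ ∀ {S : Type} [MeasurableSpace S] {m : ℕ} (μ : Measure S) (d : S → S → ℝ) (f : ℝ → S → S) (H H' : (EE m → EE m) → Prop) (κ : S → EE m → S) (F : S → S → EE m → EE m) (τ : S → S → EE m → ℝ),
  Sct2 μ d f H C e κ F τ → HB H' C1 ρ0 → RCN H H' ρ0 → ∀ (z : S) (a0 : EE m), ‖a0‖ ≤ e2 → ∀ (n : ℕ) (ε : ℝ), 0 ≤ ε → ε ≤ ε1 →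
    BB d f n (κ z a0) ε ⊆ bxs f κ z (SZ f κ F z a0 n (C3 * ε)) (C3 * ε) ∧ ∀ a : EE m, ‖a‖ ≤ e → κ z a ∈ BB d f n (κ z a0) ε → a ∈ SZ f κ F z a0 n (C3 * ε)

/-- **Row GVV** (THE UNIFORM VOLUME LEMMA, BOTH DIRECTIONS; medium; from GZD, GZI, GZO, GSX, GSB; adapt GGV). `a0 = 0` (`κ z 0 = z`; `orz f κ F z 0 = orb f F z` by `k0`, `f0`; `orb f F (f n x) k = orb f F x (n + k)` by `fa`). (1) as GGV. (2) UPPER: `n = ⌈T⌉₊`, `k = ⌈U⌉₊`, `N = ⌊T + U⌋₊`, `n + k ≤ N + 2`. `μ(BB (T+U) x ε) ≤ μ(BB N x ε) ≤ C C3 ε vol(SB (orb x) N (C3 ε))` (GZO, `mle`) `≤ C' vol(SB (orb x) (N+2) ρ)` (GSX)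
`≤ C' vol(SB (orb x) (n+k) ρ) ≤ C'' vol(SB (orb x) n ρ') vol(SB (orb (f n x)) k ρ')` (`gvu`). LOWER bounds of the factors: `μ(BB T x ε') ≥ μ(BB n x ε') ≥ c vol(SB (orb x) n ρ')` (GZI, `lem`); `BB U (f T x) ε'` contains `f (-s) '' BB k (f n x) ε''`, `s = n - T ∈ [0,1]`, `ε'' = ε'/C` (for `r ≥ s` clear, for `r < s` `|r - s| ≤ 1` and `lp`), `f (-s)` preserves `μ` (for every set: measurable equivalence).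
(3) `BB 0 x ε`: GZO and GZI for `n = 0` (`SB _ 0 ρ` is a ball). -/
def GVV_stmt : Prop := ∀ (m : ℕ) (H' : (EE m → EE m) → Prop) (C e C1 ν ρ0 : ℝ), 1 ≤ C → 0 < e → HB2 H' C1 ν ρ0 → ∃ ε0 : ℝ, 0 < ε0 ∧ ∀ ε' ε : ℝ, 0 < ε' → ε' ≤ ε0 → 0 < ε → ε ≤ ε0 → ∃ C' : ℝ, 1 ≤ C' ∧
  ∀ {S : Type} [MeasurableSpace S] (μ : Measure S) (d : S → S → ℝ) (f : ℝ → S → S) (H : (EE m → EE m) → Prop) (κ : S → EE m → S) (F : S → S → EE m → EE m) (τ : S → S → EE m → ℝ), Sct2 μ d f H C e κ F τ → RCN H H' ρ0 → ∀ (x : S) (T U : ℝ), 0 ≤ T → 0 ≤ U →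
    μ (BB d f T x ε) * μ (BB d f U (f T x) ε) ≤ ENNReal.ofReal C' * μ (BB d f (T + U) x ε') ∧
    μ (BB d f (T + U) x ε) ≤ ENNReal.ofReal C' * (μ (BB d f T x ε') * μ (BB d f U (f T x) ε')) ∧
    ENNReal.ofReal C'⁻¹ ≤ μ (BB d f 0 x ε) ∧ μ (BB d f 0 x ε) ≤ ENNReal.ofReal C'

/-! ## 3. Vertical discs -/

/-- **Row GD1** (discs are not larger than Bowen balls; medium; from GZI, GZO, GZD, GSX). Any `e3 ≤ e4`. `a0 = (0, w)`, `y0 = κ z a0`, `n = ⌊T⌋₊`: by GZO (second claim) the set is contained in `{w' | (0, w') - (0, w) ∈ SB (orz z a0) n (C3 ε)}`, a translate of `{v | (0, v) ∈ SB (orz z a0) n (C3 ε)}`: volume `≤ C' vol(SB (orz z a0) n ρ)` (`dsc`)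
`≤ C' vol(SB (orz z a0) (n+1) ρ'')` (GSX) `= C' vol(SZ z a0 (n+1) ρ'')` (translation) `≤ C'' μ(bxs f κ z (SZ ..) ρ'')` (`lem`; `SZ` is closed) `≤ C'' μ(BB (n+1) y0 (C3 ρ''))` (GZI) `≤ C'' μ(BB T y0 ε')`. -/
def GD1_stmt : Prop := ∀ (m : ℕ) (H' : (EE m → EE m) → Prop) (C e C1 ν ρ0 : ℝ), 1 ≤ C → 0 < e → HB2 H' C1 ν ρ0 → ∃ ε0 e4 : ℝ, 0 < ε0 ∧ 0 < e4 ∧ ∀ e3 ε' ε : ℝ, 0 < e3 → e3 ≤ e4 → 0 < ε' → ε' ≤ ε0 → 0 < ε → ε ≤ ε0 → ∃ C' : ℝ, 1 ≤ C' ∧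
  ∀ {S : Type} [MeasurableSpace S] (μ : Measure S) (d : S → S → ℝ) (f : ℝ → S → S) (H : (EE m → EE m) → Prop) (κ : S → EE m → S) (F : S → S → EE m → EE m) (τ : S → S → EE m → ℝ), Sct2 μ d f H C e κ F τ → RCN H H' ρ0 → ∀ (z : S) (w : EuclideanSpace ℝ (Fin m)) (T : ℝ), ‖w‖ ≤ e3 / 2 → 0 ≤ T →
    volume {w' : EuclideanSpace ℝ (Fin m) | ‖w'‖ ≤ e3 ∧ κ z (0, w') ∈ BB d f T (κ z (0, w)) ε} ≤ ENNReal.ofReal C' * μ (BB d f T (κ z (0, w)) ε')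

/-- **Row GD2** (Bowen balls at points of the disc are not larger than discs; medium; from GZI, GZO, GZD, GSX). Any `e3 ≤` a constant (`e3` is given, `≤ e4`). `a0 = (0, w)`, `n = ⌊T⌋₊`: `μ(BB T y0 ε) ≤ μ(BB n y0 ε) ≤ C C3 ε vol(SZ z a0 n (C3 ε))` (GZO, `mle`) `≤ C' vol(SB (orz z a0) (n+1) ρ)` (GSX) `≤ C'' vol {v | (0, v) ∈ SB (orz z a0) (n+1) ρ''}` (`dsc`), and for such `v` (`‖v‖ ≤ ρ'' ≤ e3/2`) `κ z (0, w + v) ∈ BB (n+1) y0 (C3 ρ'') ⊆ BB T y0 ε'` (GZI, `s = 0`). -/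
def GD2_stmt : Prop := ∀ (m : ℕ) (H' : (EE m → EE m) → Prop) (C e C1 ν ρ0 : ℝ), 1 ≤ C → 0 < e → HB2 H' C1 ν ρ0 → ∃ ε0 e4 : ℝ, 0 < ε0 ∧ 0 < e4 ∧ ∀ e3 ε' ε : ℝ, 0 < e3 → e3 ≤ e4 → 0 < ε' → ε' ≤ ε0 → 0 < ε → ε ≤ ε0 → ∃ C' : ℝ, 1 ≤ C' ∧
  ∀ {S : Type} [MeasurableSpace S] (μ : Measure S) (d : S → S → ℝ) (f : ℝ → S → S) (H : (EE m → EE m) → Prop) (κ : S → EE m → S) (F : S → S → EE m → EE m) (τ : S → S → EE m → ℝ), Sct2 μ d f H C e κ F τ → RCN H H' ρ0 → ∀ (z : S) (w : EuclideanSpace ℝ (Fin m)) (T : ℝ), ‖w‖ ≤ e3 / 2 → 0 ≤ T →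
    μ (BB d f T (κ z (0, w)) ε) ≤ ENNReal.ofReal C' * volume {w' : EuclideanSpace ℝ (Fin m) | ‖w'‖ ≤ e3 ∧ κ z (0, w') ∈ BB d f T (κ z (0, w)) ε'}

/-- **Row GD3** (discs are expanded; short-medium; from GZD, GZO). `a0 = (0, w)`, `u = (0, w' - w)`, `n = ⌊T⌋₊`, `u ∈ SB (orz z a0) n (C3 ε0)` (GZO). `n = 0`: `T < 1`, `‖w - w'‖ ≤ 2 e4`. `n ≥ 1`: `nbd` for `a i = itr _ i u` and `b i = 0`, `k = 0`, `u.1 = 0`: `‖u‖ ≤ C1 exp(-ν n) C3 ε0`, `T < n + 1`. -/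
def GD3_stmt : Prop := ∀ (C e C1 ν ρ0 : ℝ), 1 ≤ C → 0 < e → ∃ ε0 e4 C' : ℝ, 0 < ε0 ∧ 0 < e4 ∧ 1 ≤ C' ∧ ∀ (m : ℕ) (H' : (EE m → EE m) → Prop), HB2 H' C1 ν ρ0 →
  ∀ {S : Type} [MeasurableSpace S] (μ : Measure S) (d : S → S → ℝ) (f : ℝ → S → S) (H : (EE m → EE m) → Prop) (κ : S → EE m → S) (F : S → S → EE m → EE m) (τ : S → S → EE m → ℝ), Sct2 μ d f H C e κ F τ → RCN H H' ρ0 → ∀ (z : S) (w w' : EuclideanSpace ℝ (Fin m)) (T : ℝ), ‖w‖ ≤ e4 → ‖w'‖ ≤ e4 → 0 ≤ T →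
    κ z (0, w') ∈ BB d f T (κ z (0, w)) ε0 → ‖w - w'‖ ≤ C' * Real.exp (-(ν * T))

/-! ## 4. Output on the unit shell -/

/-- **Row GJF** (OUTPUT for block B4, in the structures `VL`, `DSK` of helper93's SpecB4a; short-medium; from HBC, SCC, GVV, GD1, GD2, GD3, SNM). `C`, `e0`, `e1` give `C'`, `e'` (SCC) and `C1`, `ν`, `ρ0` (HBC), `H = HYP c C e0`, `H' = HYP c C (e0/2)` (HBC needs `0 < c`: given). `e3` = the minimum of the `e4` of GD1, GD2, GD3 and `e1`; `ε0 > 0` with `16 ε0` below all radii of GVV, GD1, GD2, GD3.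
`Cf ε` = the maximum of the constants of GVV, GD1, GD2 for the radii `16 ε`, `ε`, `ε / 16` and of the constant of GD3 (choice). `VL`: `dc` from `Dis.cont`, `d0 .. dt`, `f0`, `fa` from `Sct`, `fcn` from `IsFlow.smooth` (subtype), `up` = GVV (2), `one` = GVV (4). `DSK.hc` (continuity at `w`): choose `γ` with `γ • (κ z (0, w)).1 ∈ K`; `dd (κ z (0, w)) (κ z (0, w')) ≤ C ‖w - w'‖ → 0`, so by `Dis.inv`, `Dis.lo` `lft γ (κ z (0, w')) → lft γ (κ z (0, w))`, and apply the continuous map `lft γ⁻¹` (`lc`, `one`, `mul`). `d2` = GD2, `d3` = GD3 (`‖w‖ ≤ e3/2 ≤ e4`; `ε0`-balls contain the `16 ε`-balls), the last part = GD1. -/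
def GJF_stmt : Prop := ∀ (m : ℕ) (r1 c C e0 e1 : ℝ), 0 < r1 → 0 < c → 1 ≤ C → 0 < e0 → 0 < e1 → ∃ (ε0 e3 ν : ℝ) (Cf : ℝ → ℝ), 0 < ε0 ∧ 0 < e3 ∧ e3 ≤ e1 ∧ 0 < ν ∧ (∀ ε, 1 ≤ Cf ε) ∧
  ∀ (Γ : Type) [Group Γ] [MulAction Γ (V (m + 1))] (K F0 : Set (V (m + 1))) (G : V (m + 1) → V (m + 1) →L[ℝ] V (m + 1)) (Φ : ℝ → P (m + 1) → P (m + 1)) (dd : P (m + 1) → P (m + 1) → ℝ) (κ : P (m + 1) → EE m → P (m + 1)),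
  GeU Γ K F0 G Φ r1 C dd → SEC c C e0 e1 {p | nrm G p = 1} dd Φ κ → ∃ (f : ℝ → Shl G → Shl G) (κ' : Shl G → EE m → Shl G), (∀ (t : ℝ) (x : Shl G), (f t x).1 = Φ t x.1) ∧ (∀ (z : Shl G) (a : EE m), ‖a‖ ≤ e1 → (κ' z a).1 = κ z.1 a) ∧
  ∀ ε : ℝ, 0 < ε → ε ≤ ε0 → VDL.VL (muS G) (fun x y => dd x.1 y.1) f ε (Cf ε) ∧ ∀ z : Shl G, VDL.DSK (muS G) (fun x y => dd x.1 y.1) f ε (Cf ε) e3 ν (fun w => κ' z (0, w)) ∧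
    ∀ (w : EuclideanSpace ℝ (Fin m)) (T : ℝ), ‖w‖ ≤ e3 / 2 → 0 ≤ T → volume {w' : EuclideanSpace ℝ (Fin m) | ‖w'‖ ≤ e3 ∧ κ' z (0, w') ∈ BB (fun x y : Shl G => dd x.1 y.1) f T (κ' z (0, w)) ε} ≤ ENNReal.ofReal (Cf ε) * muS G (BB (fun x y : Shl G => dd x.1 y.1) f T (κ' z (0, w)) (16 * ε))

end

end Pool.Agent.VDG
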