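import Pool.Agent.helper82.VD.AllH
import Pool.Agent.helper82.VD.SpecJ
import Pool.Agent.helper94.VD.B1X
import Pool.Agent.helper82.VDG.GZD
import Pool.Agent.helper82.VDG.GZI
import Pool.Agent.helper82.VDG.GZO
import Pool.Agent.helper82.VDG.SCC
import Pool.Agent.helper82.VDG.GSX
import Pool.Agent.helper82.VDG.HBC
import Pool.Agent.helper56.VDG.GVV
import Pool.Agent.helper5.VDG.GD1
import Pool.Agent.helper83.VDG.GD2
import Pool.Agent.helper69.VDG.GD3
import Pool.Agent.helper9.VDG.GJF

/-!
# Project VD, block B3 part 4 (assembly): the uniform volume lemma, vertical discs (`GJF_stmt`), no hypotheses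
-/

set_option autoImplicit false

namespace Pool.Agent.VDG

open Pool.Agent.VD Pool.Agent.VDE

/-- hyperbolic maps -/
theorem HBC_t : HBC_stmt := HBC_proof HBB_t B1_NRC B1_NBD B1_NGU B1_NDV

/-- changing the length -/
theorem GSX_t : GSX_stmt := GSX_proof GSB_t

/-- abstract sections -/
theorem SCC_t : SCC_stmt := SCC_proof MSC_t SNM_t SLI_t

/-- no drift -/
theorem GZD_t : GZD_stmt := GZD_proof

/-- flow boxes in Bowen balls -/
theorem GZI_t : GZI_stmt := GZI_proof GZD_t

/-- Bowen balls in flow boxes -/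
theorem GZO_t : GZO_stmt := GZO_proof GZD_t

/-- the uniform volume lemma -/
theorem GVV_t : GVV_stmt := GVV_proof GZD_t GZI_t GZO_t GSX_t GSB_t

/-- discs are not larger than Bowen balls -/
theorem GD1_t : GD1_stmt := GD1_proof GZD_t GZI_t GZO_t GSX_t

/-- Bowen balls are not larger than discs -/
theorem GD2_t : GD2_stmt := GD2_proof GZD_t GZI_t GZO_t GSX_t

/-- discs are expanded -/
theorem GD3_t : GD3_stmt := GD3_proof GZD_t GZO_t

/-- the output for block B4 -/
theorem GJF_t : GJF_stmt := GJF_proof HBC_t SCC_t GVV_t GD1_t GD2_t GD3_t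

end Pool.Agent.VDG
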