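import Pool.Agent.helper93.VD.AllB4
import Pool.Agent.helper84.VD.All3
import Pool.Agent.helper82.VD.AllJ
import Pool.Agent.helper82.VDG.GSD

/-!
# Project VD, block B3 (assembly): the volume lemma and shadowing for every metric of the class (`VDE.GSD_stmt`), no hypotheses
-/

set_option autoImplicit false

namespace Pool.Agent.VDG

open Pool.Agent.VD Pool.Agent.VDE

/-- the volume lemma and shadowing -/
theorem GSD_t : GSD_stmt := GSD_proof VDL.B4_GUE GFI_t VDL.B4_FLD B3_SCM

end Pool.Agent.VDG
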