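import Pool.Agent.helper62.VD.SpecE

/-!
# MP_07c750 (QUE, weight 10), project VD (all dimensions), block B3 part 1: SHADOWING `SHB` and the VOLUME LEMMA `GV` (the two inputs of helper62's block E) from sections and abstract hyperbolic maps

ABSTRACT: a space `S` with a pseudo-distance `d`, a measure `μ` and a flow `f`; charts `κ z : EE m → S` of sections at `z` (block B2) and Poincaré maps `F z z'` which are in a class `H` of hyperbolic maps of `EE m = ℝ^m × ℝ^m` (block B1). No geometry.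
RULES. Row `vdg:XXX`: file `Pool/Agent/<seat>/VD/XXX.lean`, `import Pool.Agent.helper82.VD.SpecG`, `set_option autoImplicit false`, namespace `Pool.Agent.VDG`, `open Pool.Agent.VDE MeasureTheory Filter Set Topology`, `open scoped ENNReal`, auxiliary lemmas prefixed `XXX_`, theorem `XXX_proof : XXX_stmt` (rows listed in `from` may be used as hypotheses `(h : YYY_stmt)`).
No `convert`, `congr!`, `native_decide`, no double quotes, no `private`, no `#` commands.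
-/

set_option autoImplicit false

open MeasureTheory Filter Set Topology Pool.Agent.VDE
open scoped ENNReal

namespace Pool.Agent.VDG

noncomputable section

/-! ## 1. The model space, Bowen balls in sections, the abstract class -/

/-- the model space `ℝ^m × ℝ^m`, points `(j, w)`, with the maximum norm -/
abbrev EE (m : ℕ) : Type := EuclideanSpace ℝ (Fin m) × EuclideanSpace ℝ (Fin m)

/-- `q (j, w) = ⟪j, w⟫` -/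
def qq {m : ℕ} (a : EE m) : ℝ := inner ℝ a.1 a.2

/-- `F (i - 1) ∘ ... ∘ F 0` -/
def itr {m : ℕ} (F : ℕ → EE m → EE m) : ℕ → EE m → EE m
  | 0, a => a
  | i + 1, a => F i (itr F i a)

/-- Bowen balls of a sequence of maps -/
def SB {m : ℕ} (F : ℕ → EE m → EE m) (n : ℕ) (ρ : ℝ) : Set (EE m) := {a | ∀ i ≤ n, ‖itr F i a‖ ≤ ρ}

/-- what is used about the class `H` of hyperbolic maps (OUTPUT of block B1): bounded Lipschitz constants, expansion of `q` for maps fixing `0`, shadowing, the volume lemma -/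
structure HB {m : ℕ} (H : (EE m → EE m) → Prop) (C ρ0 : ℝ) : Prop where
  hC : 1 ≤ C
  hρ : 0 < ρ0
  lip : ∀ F : EE m → EE m, H F → ∀ a b : EE m, ‖a‖ ≤ ρ0 → ‖b‖ ≤ ρ0 → ‖F a - F b‖ ≤ C * ‖a - b‖
  qs : ∀ F : EE m → EE m, H F → F 0 = 0 → ∀ a : EE m, ‖a‖ ≤ ρ0 → qq a + C⁻¹ * ‖a‖ ^ 2 ≤ qq (F a)
  sha : ∀ (n : ℕ) (F : ℕ → EE m → EE m) (δ : ℝ), 0 ≤ δ → δ ≤ ρ0 → (∀ i < n, H (F i) ∧ ‖F i 0‖ ≤ δ) →
    ∃ a : ℕ → EE m, (∀ i < n, a (i + 1) = F i (a i)) ∧ ∀ i ≤ n, ‖a i‖ ≤ C * δ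
  gva : ∀ ρ' ρ : ℝ, 0 < ρ' → ρ' ≤ ρ → ρ ≤ ρ0 → ∃ C' : ℝ, 0 < C' ∧ ∀ (n k : ℕ) (F : ℕ → EE m → EE m), (∀ i < n + k, H (F i) ∧ F i 0 = 0) →
    volume (SB F n ρ) * volume (SB (fun i => F (n + i)) k ρ) ≤ ENNReal.ofReal C' * volume (SB F (n + k) ρ')

/-! ## 2. Sections -/

/-- the flow box over `A` -/
def bxs {S : Type} {m : ℕ} (f : ℝ → S → S) (κ : S → EE m → S) (z : S) (A : Set (EE m)) (r : ℝ) : Set S := {p | ∃ a ∈ A, ∃ s : ℝ, |s| ≤ r ∧ p = f s (κ z a)}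

/-- sections `κ z` at all points `z`, Poincaré maps `F z z'` with return times `τ z z'` whenever `z'` is close to `f 1 z` (OUTPUT of block B2) -/
structure Sct {S : Type} [MeasurableSpace S] {m : ℕ} (μ : Measure S) (d : S → S → ℝ) (f : ℝ → S → S) (H : (EE m → EE m) → Prop) (C e : ℝ) (κ : S → EE m → S) (F : S → S → EE m → EE m) (τ : S → S → EE m → ℝ) : Prop where
  hC : 1 ≤ C
  he : 0 < e
  d0 : ∀ x y, 0 ≤ d x y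
  dz : ∀ x, d x x = 0
  ds : ∀ x y, d x y = d y x
  dt : ∀ x y z, d x z ≤ d x y + d y z
  f0 : ∀ x, f 0 x = x
  fa : ∀ (s t : ℝ) (x : S), f (s + t) x = f s (f t x)
  fm : ∀ t : ℝ, MeasurePreserving (f t) μ μ
  /-- moving along the flow -/
  tt : ∀ (x : S) (t : ℝ), |t| ≤ 2 → d x (f t x) ≤ C * |t|
  /-- the flow is Lipschitz for bounded times -/
  lp : ∀ (x y : S) (t : ℝ), |t| ≤ 2 → d (f t x) (f t y) ≤ C * d x y
  k0 : ∀ z, κ z 0 = z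
  kl : ∀ (z : S) (a : EE m), ‖a‖ ≤ e → d z (κ z a) ≤ C * ‖a‖
  /-- the flow box contains a ball -/
  bx : ∀ z p : S, d z p ≤ e → ∃ (a : EE m) (s : ℝ), ‖a‖ ≤ C * d z p ∧ |s| ≤ C * d z p ∧ p = f s (κ z a)
  /-- the flow box is injective -/
  inj : ∀ (z : S) (a a' : EE m) (s : ℝ), ‖a‖ ≤ e → ‖a'‖ ≤ e → |s| ≤ e → κ z a' = f s (κ z a) → a' = a ∧ s = 0
  /-- Poincaré maps -/
  poH : ∀ z z' : S, d (f 1 z) z' ≤ e → H (F z z')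
  po0 : ∀ z z' : S, d (f 1 z) z' ≤ e → ‖F z z' 0‖ ≤ C * d (f 1 z) z'
  poF : ∀ z z' : S, d (f 1 z) z' ≤ e → ∀ a : EE m, ‖a‖ ≤ e → κ z' (F z z' a) = f (τ z z' a) (κ z a) ∧ |τ z z' a - 1| ≤ C * (‖a‖ ^ 2 + d (f 1 z) z')
  /-- the measure of flow boxes -/
  mle : ∀ (z : S) (A : Set (EE m)) (r : ℝ), A ⊆ Metric.closedBall 0 e → MeasurableSet A → 0 ≤ r → r ≤ e → μ (bxs f κ z A r) ≤ ENNReal.ofReal (C * r) * volume A
  lem : ∀ (z : S) (A : Set (EE m)) (r : ℝ), A ⊆ Metric.closedBall 0 e → MeasurableSet A → 0 ≤ r → r ≤ e → ENNReal.ofReal (C⁻¹ * r) * volume A ≤ μ (bxs f κ z A r)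

/-- the Poincaré maps along the orbit of `x` -/
def orb {S : Type} {m : ℕ} (f : ℝ → S → S) (F : S → S → EE m → EE m) (x : S) (i : ℕ) : EE m → EE m := F (f i x) (f (i + 1) x)

/-! ## 3. Rows -/

/-- **Row GSH** (SHADOWING; medium). Given `ε`: `δ > 0` with `δ ≤ e`, `C δ ≤ ρ0`, `C1 C δ ≤ min e ρ0`, `C · C · (C1 C δ) ≤ ε`, `C ((C1 C δ)² + δ) ≤ ε`, `2 C C1 (C1 C δ)² ≤ ε`. For the pseudo-orbit `x`: `F_i = F (x i) (x (i+1))` (`i < n`) is in `H` (`poH`), `‖F_i 0‖ ≤ C δ` (`po0`);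
`a` from `sha` (for `C δ`), `‖a i‖ ≤ C1 C δ`. `z = κ (x 0) (a 0)`, `τ 0 = 0`, `τ (i+1) = τ i + τ (x i) (x (i+1)) (a i)`. By induction (`poF`, `fa`) `f (τ i) z = κ (x i) (a i)` for `i ≤ n`. For `s ∈ [0,1]`: `d (f s (x i)) (f (τ i + s) z) = d (f s (x i)) (f s (κ (x i) (a i))) ≤ C · C ‖a i‖ ≤ ε` (`lp`, `kl`).
`|τ (i+1) - τ i - 1| ≤ C (‖a i‖² + δ) ≤ ε`. If `x (l+1) = f 1 (x l)` for `i ≤ l < j` then `F_l 0 = 0` (`po0`, `dz`), so by `qs` `C1⁻¹ ‖a l‖² ≤ qq (a (l+1)) - qq (a l)` and the sum telescopes: `|τ j - τ i - (j - i)| ≤ Σ_l |τ (l+1) - τ l - 1| ≤ C Σ_l ‖a l‖² ≤ C C1 (|qq (a j)| + |qq (a i)|) ≤ 2 C C1 (C1 C δ)²`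
(`poF` with `d (f 1 (x l)) (x (l+1)) = 0`; `|qq a| ≤ ‖a‖²`: Cauchy-Schwarz). -/
def GSH_stmt : Prop := ∀ {S : Type} [MeasurableSpace S] {m : ℕ} (μ : Measure S) (d : S → S → ℝ) (f : ℝ → S → S) (H : (EE m → EE m) → Prop) (C e : ℝ) (κ : S → EE m → S) (F : S → S → EE m → EE m) (τ : S → S → EE m → ℝ) (C1 ρ0 : ℝ),
  Sct μ d f H C e κ F τ → HB H C1 ρ0 → SHB d f

/-- **Row GDR** (no drift; short-medium; used in GIN and GOU). `T 0 = 0`, `T (i+1) = T i + τ (f i x) (f (i+1) x) (itr (orb f F x) i a)`. `d (f 1 (f i x)) (f (i+1) x) = 0` (`fa`, `dz`), so `orb f F x i` is in `H` and fixes `0` (`po0`). Induction: `f (T i) (κ x a) = κ (f i x) (itr _ i a)` for `i ≤ n` (`k`-th step needs only `‖itr _ k a‖ ≤ ρ ≤ e` for `k < i`).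
`|T i - i| ≤ Σ_(l<i) C ‖itr _ l a‖²` and `C1⁻¹ Σ_(l<i) ‖itr _ l a‖² ≤ qq (itr _ i a) - qq a ≤ 2 ρ²` (`qs`, telescoping sum; `|qq b| ≤ ‖b‖²`; for `i ≤ n`). -/
def GDR_stmt : Prop := ∀ {S : Type} [MeasurableSpace S] {m : ℕ} (μ : Measure S) (d : S → S → ℝ) (f : ℝ → S → S) (H : (EE m → EE m) → Prop) (C e : ℝ) (κ : S → EE m → S) (F : S → S → EE m → EE m) (τ : S → S → EE m → ℝ) (C1 ρ0 : ℝ),
  Sct μ d f H C e κ F τ → HB H C1 ρ0 → (∀ (x : S) (i : ℕ), H (orb f F x i) ∧ orb f F x i 0 = 0) ∧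
  (∀ (x : S) (n k : ℕ), orb f F (f n x) k = orb f F x (n + k)) ∧
  ∀ (x : S) (n : ℕ) (ρ : ℝ) (a : EE m), ρ ≤ e → ρ ≤ ρ0 → a ∈ SB (orb f F x) n ρ → ∃ T : ℕ → ℝ, ∀ i ≤ n, f (T i) (κ x a) = κ (f i x) (itr (orb f F x) i a) ∧ |T i - i| ≤ 2 * C * C1 * ρ ^ 2

/-- **Row GIN** (flow boxes over section Bowen balls are in Bowen balls; short-medium; from GDR). `ρ1 ≤ min e ρ0`, `ρ1 ≤ 1/2`, `2 C C1 ρ1² + ρ1 ≤ 1`, `C2 = C (2 C C1 ρ1 + 1) + C²`. `y = f s (κ x a)`, `a_i = itr _ i a`, `T` from GDR. `t ∈ [0,n]`, `i = ⌊t⌋₊ ≤ n`, `r = t - i ∈ [0,1)`: `f t y = f (t + s - T i) (κ (f i x) a_i) = f (r + u) (κ (f i x) a_i)`, `u = i - T i + s`, `|u| ≤ (2 C C1 ρ + 1) ρ ≤ 1`, `|r + u| ≤ 2`.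
`d (f t x) (f t y) ≤ d (f r (f i x)) (f u (f r (f i x))) + d (f (r+u) (f i x)) (f (r+u) (κ (f i x) a_i)) ≤ C |u| + C · C ‖a_i‖`. -/
def GIN_stmt : Prop := ∀ {S : Type} [MeasurableSpace S] {m : ℕ} (μ : Measure S) (d : S → S → ℝ) (f : ℝ → S → S) (H : (EE m → EE m) → Prop) (C e : ℝ) (κ : S → EE m → S) (F : S → S → EE m → EE m) (τ : S → S → EE m → ℝ) (C1 ρ0 : ℝ),
  Sct μ d f H C e κ F τ → HB H C1 ρ0 → ∃ ρ1 C2 : ℝ, 0 < ρ1 ∧ 0 < C2 ∧ ∀ (x : S) (n : ℕ) (ρ : ℝ), 0 ≤ ρ → ρ ≤ ρ1 → bxs f κ x (SB (orb f F x) n ρ) ρ ⊆ BB d f n x (C2 * ρ)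

/-- **Row GOU** (Bowen balls are in flow boxes over section Bowen balls; medium; from GDR). `ε1 > 0` with `ε1 ≤ e`, `C ε1 ≤ min e ρ0`, `C1 · C ε1 ≤ e`, `C (C ε1)² + 2 C ε1 ≤ e`. `y ∈ BB d f n x ε`: for `i ≤ n` `f i y = f (s i) (κ (f i x) (a i))`, `‖a i‖, |s i| ≤ C ε` (`bx`). Claim `orb _ _ x i (a i) = a (i+1)` for `i < n`: with `τ_i = τ (f i x) (f (i+1) x) (a i)`, `|τ_i - 1| ≤ C ‖a i‖²` (GDR: the map fixes `0`),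
`κ (f (i+1) x) (orb _ _ x i (a i)) = f τ_i (κ (f i x) (a i)) = f (τ_i - s i) (f i y) = f (τ_i - s i - 1) (f (i+1) y) = f (τ_i - s i - 1 + s (i+1)) (κ (f (i+1) x) (a (i+1)))`; `‖orb _ _ x i (a i)‖ ≤ C1 ‖a i‖ ≤ e` (`lip`, fixes `0`), and `inj`. So `itr _ i (a 0) = a i` for `i ≤ n`, and `y = f (s 0) (κ x (a 0))`. -/
def GOU_stmt : Prop := ∀ {S : Type} [MeasurableSpace S] {m : ℕ} (μ : Measure S) (d : S → S → ℝ) (f : ℝ → S → S) (H : (EE m → EE m) → Prop) (C e : ℝ) (κ : S → EE m → S) (F : S → S → EE m → EE m) (τ : S → S → EE m → ℝ) (C1 ρ0 : ℝ),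
  Sct μ d f H C e κ F τ → HB H C1 ρ0 → ∃ ε1 : ℝ, 0 < ε1 ∧ ∀ (x : S) (n : ℕ) (ε : ℝ), 0 ≤ ε → ε ≤ ε1 → BB d f n x ε ⊆ bxs f κ x (SB (orb f F x) n (C * ε)) (C * ε)

/-- **Row GSB** (section Bowen balls: closed, in the ball, not small for short times, product inequality with a gap; short-medium, PURE). (1) `SB F 0 ρ` is the closed ball, `SB F n ρ ⊆ closedBall 0 ρ`. (2) Closed: by induction on `n`, `itr F n` is continuous on `SB F n ρ` (`lip`) and `SB F (n+1) ρ = SB F n ρ ∩ {a | ‖F n (itr F n a)‖ ≤ ρ}` (`ContinuousOn.preimage_isClosed_of_isClosed`).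
(3) for `k ≤ 2` and maps fixing `0`: `SB F k ρ` contains the ball of radius `ρ / C²` (`C ≥ 1`). (4) by (3) and `gva` three times (for `(ρ, ρ)`, `(ρ, ρ)`, `(ρ', ρ)`): with `v = volume (ball 0 (ρ/C²))`, finite and positive: `vol SB F n · v ≤ C' vol SB F (n+1)`, `vol SB (F (n+1+·)) k · v ≤ C' vol SB (F (n+1+·)) (k+2)`, `vol SB F (n+1) · vol SB (F (n+1+·)) (k+2) ≤ C'' vol SB F (n+k+3) ρ'`. -/
def GSB_stmt : Prop := ∀ {m : ℕ} (H : (EE m → EE m) → Prop) (C1 ρ0 : ℝ), HB H C1 ρ0 →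
  (∀ (F : ℕ → EE m → EE m) (ρ : ℝ), SB F 0 ρ = Metric.closedBall 0 ρ) ∧ (∀ (F : ℕ → EE m → EE m) (n : ℕ) (ρ : ℝ), SB F n ρ ⊆ Metric.closedBall 0 ρ) ∧
  (∀ (F : ℕ → EE m → EE m) (n : ℕ) (ρ : ℝ), ρ ≤ ρ0 → (∀ i < n, H (F i)) → IsClosed (SB F n ρ)) ∧
  ∀ ρ' ρ : ℝ, 0 < ρ' → ρ' ≤ ρ → ρ ≤ ρ0 → ∃ c : ℝ, 0 < c ∧ ∀ (n k : ℕ) (F : ℕ → EE m → EE m), (∀ i, H (F i) ∧ F i 0 = 0) →
    ENNReal.ofReal c * (volume (SB F n ρ) * volume (SB (fun i => F (n + 1 + i)) k ρ)) ≤ volume (SB F (n + k + 3) ρ')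

/-- **Row GGV** (THE VOLUME LEMMA; medium; from GDR, GIN, GOU, GSB). `ε0 = min (ε1, ρ0/C, e/C)` (GOU). Given `0 < ε' ≤ ε ≤ ε0`: `ρ = C ε`, `ρ' = min (ρ1, ε'/C2, ρ, e)`. `n = ⌊T⌋₊`, `k = ⌊U⌋₊ - 1`, `T + U ≤ n + k + 3`. (a) `μ(BB T x ε) ≤ μ(BB n x ε) ≤ C ρ vol(SB (orb x) n ρ)` (BB decreases in the time; GOU, `mle`). (b) `μ(BB U (f T x) ε) ≤ C ρ vol(SB (orb (f (n+1) x)) k ρ)`: if `1 ≤ U`, `s = n + 1 - T ∈ (0,1]`:
`f s` maps `BB U (f T x) ε` into `BB k (f (n+1) x) ε` (`k ≤ U - 1 ≤ U - s`), and `μ A ≤ μ B` if `f s '' A ⊆ B` (`A ⊆ f s ⁻¹' B`; `μ (f s ⁻¹' B) = μ B` for every set: `f s` is a measurable equivalence with inverse `f (-s)`), then as in (a); if `U < 1` then `k = 0` and `BB U (f T x) ε ⊆ BB 0 (f T x) ε`, whose measure is at most `C ρ vol(closedBall 0 ρ)` (GOU with `n = 0`), the same number.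
(c) `orb (f (n+1) x) i = orb x (n+1+i)` (GDR), GSB. (d) `μ(BB (T+U) x ε') ≥ μ(BB (n+k+3) x (C2 ρ')) ≥ μ(bxs _ _ x (SB (orb x) (n+k+3) ρ') ρ') ≥ C⁻¹ ρ' vol(SB (orb x) (n+k+3) ρ')` (GIN, `lem`). So `c = c_GSB C⁻¹ ρ' / (C ρ)²`. -/
def GGV_stmt : Prop := ∀ {S : Type} [MeasurableSpace S] {m : ℕ} (μ : Measure S) (d : S → S → ℝ) (f : ℝ → S → S) (H : (EE m → EE m) → Prop) (C e : ℝ) (κ : S → EE m → S) (F : S → S → EE m → EE m) (τ : S → S → EE m → ℝ) (C1 ρ0 : ℝ),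
  Sct μ d f H C e κ F τ → HB H C1 ρ0 → ∃ ε0 : ℝ, 0 < ε0 ∧ GV μ d f ε0

end

end Pool.Agent.VDG
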