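import Pool.Agent.helper82.VD.SpecG
import Pool.Agent.helper62.VD.SpecE2
import Pool.Agent.helper84.VD.DefsB

/-!
# MP_07c750 (QUE, weight 10), project VD (all dimensions), block B3 part 2: from the geometry to `SHBD` and `GVD` (inputs of block E) and to the abstract sections `Sct`

RULES. Row `vdg:XXX`: file `Pool/Agent/<seat>/VDG/XXX.lean`, `import Pool.Agent.helper82.VD.SpecH`, `set_option autoImplicit false`, namespace `Pool.Agent.VDG`, `open Pool.Agent.VD Pool.Agent.VDE MeasureTheory Filter Set Topology`, `open scoped ENNReal`, auxiliary lemmas prefixed `XXX_`,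
theorem `XXX_proof : XXX_stmt` (rows listed in `from` may be used as hypotheses `(h : YYY_stmt)`). No `convert`, `congr!`, `native_decide`, no double quotes, no `private`, no `#` commands.
Everything here is UNIFORM: the constants in the conclusions depend only on the numbers `m`, `r1`, `C`, `c`, `e0`, `e1`, not on the metric.
-/

set_option autoImplicit false

open MeasureTheory Filter Set Topology Pool.Agent.VDE Pool.Agent.VD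
open scoped ENNReal

namespace Pool.Agent.VDG

noncomputable section

/-- the base point is within `r1` of `K` -/
def Nr {d : ℕ} (K : Set (V d)) (r1 : ℝ) (p : P d) : Prop := ∃ k ∈ K, ‖p.1 - k‖ ≤ r1

/-- the facts about the geodesic flow with UNIFORM constants (OUTPUT of helper80's blocks) -/
structure GeU (Γ : Type) {d : ℕ} [Group Γ] [MulAction Γ (V d)] (K F0 : Set (V d)) (G : V d → V d →L[ℝ] V d) (Φ : ℝ → P d → P d) (r1 C : ℝ) (dd : P d → P d → ℝ) : Prop where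
  fld : FlD Γ K F0 G Φ C dd
  hr : 0 < r1
  hC : 1 ≤ C
  tt : ∀ (p : P d) (t : ℝ), nrm G p = 1 → |t| ≤ 2 → dd p (Φ t p) ≤ C * |t|
  lp : ∀ (p q : P d) (t : ℝ), nrm G p = 1 → nrm G q = 1 → |t| ≤ 2 → dd (Φ t p) (Φ t q) ≤ C * dd p q
  nlo : ∀ p q : P d, Nr K r1 p → Nr K r1 q → nrm G p ≤ 2 → nrm G q ≤ 2 → dd p q ≤ 1 / 2 → ‖p - q‖ ≤ C * dd p q
  nup : ∀ p q : P d, Nr K r1 p → Nr K r1 q → nrm G p ≤ 2 → nrm G q ≤ 2 → ‖p - q‖ ≤ 1 → dd p q ≤ C * ‖p - q‖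
  nno : ∀ p : P d, Nr K r1 p → ‖p.2‖ ≤ C * nrm G p
  nnl : ∀ p q : P d, Nr K r1 p → Nr K r1 q → 1 ≤ nrm G p → nrm G p ≤ 2 → 1 ≤ nrm G q → nrm G q ≤ 2 → |nrm G p - nrm G q| ≤ C * ‖p - q‖

/-- the unit shell -/
abbrev Shl {d : ℕ} (G : V d → V d →L[ℝ] V d) : Type := {p : P d // nrm G p = 1}

/-- the Liouville measure on the shell -/
def muS {d : ℕ} (G : V d → V d →L[ℝ] V d) : Measure (Shl G) := (liou G).comap Subtype.val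

/-- the flow box in phase space: `{Φ s (κ a) : a ∈ A, |s| ≤ r}` -/
def bxP {m : ℕ} (Φ : ℝ → P (m + 1) → P (m + 1)) (κ : EE m → P (m + 1)) (A : Set (EE m)) (r : ℝ) : Set (P (m + 1)) := {p | ∃ a ∈ A, ∃ s : ℝ, |s| ≤ r ∧ p = Φ s (κ a)}

/-- `(a, s, l) ↦ (x, l ξ)`, `(x, ξ) = Φ s (κ a)` -/
def Psi {m : ℕ} (Φ : ℝ → P (m + 1) → P (m + 1)) (κ : EE m → P (m + 1)) (q : EE m × ℝ × ℝ) : P (m + 1) := ((Φ q.2.1 (κ q.1)).1, q.2.2 • (Φ q.2.1 (κ q.1)).2)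

/-- **Row HBB** (the class `HYP` satisfies `HB`; short-medium; PURE; from NFD, NSH, NGV of helper93's SpecB1). `ρ0` = minimum of the radii `e1` (NFD, NSH, NGV) and of `e2` (NSH); `C1 = max (C, 2/c, K, 1)`. `lip`: NFD. `qs`: NFD with `b = 0`, `C1⁻¹ ≤ c/2`. `sha`: `n = 0`: `a = 0`; `n ≥ 1`: replace `F i` by `F 0` for `i ≥ n` and use NSH with `ε = δ`, `x = y = 0`.
`gva`: if `n + k ≥ 1` replace `F i` by `F 0` for `i ≥ n + k` (`itr F i`, `i ≤ n`, does not change) and use NGV (`itr = it`); if `n = k = 0` both sides are volumes of closed balls (finite, positive). `C'` = the maximum. -/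
def HBB_stmt : Prop := ∀ (m : ℕ) (c C e0 : ℝ), 0 < c → 1 ≤ C → 0 < e0 → ∃ C1 ρ0 : ℝ, ρ0 ≤ e0 / 2 ∧ HB (HYP (m := m) c C e0) C1 ρ0

/-- **Row VLP** (volumes under Lipschitz maps; short; PURE). `Measure.hausdorffMeasure` of dimension `finrank` is an additive Haar measure on `E` and on `E'` (`isAddHaarMeasure_hausdorffMeasure`), so it is a constant in `(0, ∞)` times `volume` (`Measure.isAddHaarMeasure_eq_smul`), and `LipschitzOnWith.hausdorffMeasure_image_le`. -/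
def VLP_stmt : Prop := ∀ (E E' : Type) [NormedAddCommGroup E] [NormedSpace ℝ E] [FiniteDimensional ℝ E] [MeasureSpace E] [BorelSpace E] [(volume : Measure E).IsAddHaarMeasure]
  [NormedAddCommGroup E'] [NormedSpace ℝ E'] [FiniteDimensional ℝ E'] [MeasureSpace E'] [BorelSpace E'] [(volume : Measure E').IsAddHaarMeasure], Module.finrank ℝ E = Module.finrank ℝ E' →
  ∃ k : ℝ, 0 < k ∧ ∀ (f : E → E') (A : Set E) (L : ℝ), 0 ≤ L → (∀ x ∈ A, ∀ y ∈ A, ‖f x - f y‖ ≤ L * ‖x - y‖) → volume (f '' A) ≤ ENNReal.ofReal (k * L ^ Module.finrank ℝ E) * volume A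

/-- **Row PSB** (`Psi` is bi-Lipschitz; medium; geometry only through `GeU`). `κ a = κ' z a` with `z.1 ∈ K`. For `‖a‖ ≤ e`, `|s| ≤ e` (`e` small: `e ≤ e1`, `e ≤ 1`, `2 C² e ≤ 1/2`, `C · 2 C² e ≤ min r1 (1/2)`): `dd z (Φ s (κ a)) ≤ dd z (κ a) + C |s| ≤ 2 C e ≤ 1/2` (`cmp` with `κ 0 = z`, `tt`), so by `Dis.lo` (`z.1 ∈ K`) `‖z - Φ s (κ a)‖ ≤ C · 2 C e ≤ min r1 (1/2)`: `Nr` and the distance of two such points is at most `1`.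
UPPER: `dd (Φ s (κ a)) (Φ s' (κ a')) ≤ dd (Φ s (κ a)) (Φ s (κ a')) + dd (Φ s (κ a')) (Φ (s' - s) (Φ s (κ a'))) ≤ C · C ‖a - a'‖ + C |s - s'|`, `nlo`; then `‖l ξ - l' ξ'‖ ≤ 2 ‖ξ - ξ'‖ + |l - l'| ‖ξ'‖`, `‖ξ'‖ ≤ C` (`nno`). LOWER: `p = (x, l ξ)`, `p' = (x', l' ξ')`, `nrm p = l`, `nrm p' = l'` (SNM: homogeneity), both `Nr`, so `|l - l'| ≤ C ‖p - p'‖` (`nnl`);
`ξ - ξ' = l⁻¹ ((l ξ - l' ξ') + (l' - l) ξ')`, so `‖(x, ξ) - (x', ξ')‖ ≤ (1 + C · C) ‖p - p'‖`, and `‖a - a'‖ + |s - s'| ≤ C dd ≤ C · C ‖(x, ξ) - (x', ξ')‖` (`inj`, `nup`). -/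
def PSB_stmt : Prop := ∀ (m : ℕ) (r1 C e1 : ℝ), 0 < r1 → 1 ≤ C → 0 < e1 → ∃ e L : ℝ, 0 < e ∧ e ≤ e1 ∧ e ≤ 1 ∧ 1 ≤ L ∧ ∀ (Γ : Type) [Group Γ] [MulAction Γ (V (m + 1))] (K F0 : Set (V (m + 1))) (G : V (m + 1) → V (m + 1) →L[ℝ] V (m + 1)) (Φ : ℝ → P (m + 1) → P (m + 1)) (dd : P (m + 1) → P (m + 1) → ℝ) (κ : EE m → P (m + 1)),
  GeU Γ K F0 G Φ r1 C dd → (κ 0).1 ∈ K → (∀ a, ‖a‖ ≤ e1 → nrm G (κ a) = 1) → (∀ a b, ‖a‖ ≤ e1 → ‖b‖ ≤ e1 → dd (κ a) (κ b) ≤ C * ‖a - b‖) →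
  (∀ (a a' : EE m) (s s' : ℝ), ‖a‖ ≤ e1 → ‖a'‖ ≤ e1 → |s| ≤ e1 → |s'| ≤ e1 → ‖a - a'‖ + |s - s'| ≤ C * dd (Φ s (κ a)) (Φ s' (κ a'))) →
  (∀ (a : EE m) (s : ℝ), ‖a‖ ≤ e → |s| ≤ e → Nr K r1 (Φ s (κ a)) ∧ nrm G (Φ s (κ a)) = 1) ∧
  ∀ q q' : EE m × ℝ × ℝ, ‖q.1‖ ≤ e → ‖q'.1‖ ≤ e → |q.2.1| ≤ e → |q'.2.1| ≤ e → q.2.2 ∈ Icc (1 : ℝ) 2 → q'.2.2 ∈ Icc (1 : ℝ) 2 → ‖Psi Φ κ q - Psi Φ κ q'‖ ≤ L * ‖q - q'‖ ∧ ‖q - q'‖ ≤ L * ‖Psi Φ κ q - Psi Φ κ q'‖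

/-- **Row MSC** (THE MEASURE OF FLOW BOXES; medium; from VLP, PSB, SLF, SLP, SLI of helper62's SpecE2). Choose `γ` with `γ • z.1 ∈ K` (`FdK.cover`), `κ' a = lft γ (κ z a)`: the hypotheses of PSB hold (`Dis.inv`, `fe`, `ln`; `κ' 0 = lft γ z`, and `(lft γ z).1 = γ • z.1`), `bxP Φ κ' A r = lft γ '' bxP Φ (κ z) A r`, and `liou` is invariant (SLI; `lft γ` is bijective with measurable inverse `lft γ⁻¹`: `one`, `mul`).
For `κ'`: `B = bxP Φ κ' A r`, `Q = A ×ˢ Icc (-r) r ×ˢ Ioc 1 2`, `Psi '' Q = {p | 1 < nrm p ≤ 2 ∧ dir p ∈ B}`. `B` is measurable: the image of `A ×ˢ Icc (-r) r` under an injective map which is Lipschitz on it (`MeasurableSet.image_of_continuousOn_injOn`), `liou B < ⊤` (SLP: the base points are in the compact closed ball around `K`, or in `Φ '' compact`). SLF (2), `a = 1`, `b = 2`: `volume (Psi '' Q) = (2^(m+1) - 1) liou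 B`.
VLP for `Psi` and for its inverse (`Function.invFunOn`): `k⁻¹ L^(-n) volume Q ≤ volume (Psi '' Q) ≤ k L^n volume Q`, `n = 2 m + 2 = finrank` of both spaces, `volume Q = volume A * ofReal (2 r)`. -/
def MSC_stmt : Prop := ∀ (m : ℕ) (r1 c C e0 e1 : ℝ), 0 < r1 → 1 ≤ C → 0 < e1 → ∃ e C' : ℝ, 0 < e ∧ e ≤ e1 ∧ 1 ≤ C' ∧ ∀ (Γ : Type) [Group Γ] [MulAction Γ (V (m + 1))] (K F0 : Set (V (m + 1))) (G : V (m + 1) → V (m + 1) →L[ℝ] V (m + 1)) (Φ : ℝ → P (m + 1) → P (m + 1)) (dd : P (m + 1) → P (m + 1) → ℝ) (κ : P (m + 1) → EE m → P (m + 1)),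
  GeU Γ K F0 G Φ r1 C dd → SEC c C e0 e1 {p | nrm G p = 1} dd Φ κ → ∀ (z : P (m + 1)) (A : Set (EE m)) (r : ℝ), nrm G z = 1 → A ⊆ Metric.closedBall 0 e → MeasurableSet A → 0 ≤ r → r ≤ e →
  MeasurableSet (bxP Φ (κ z) A r) ∧ liou G (bxP Φ (κ z) A r) ≤ ENNReal.ofReal (C' * r) * volume A ∧ ENNReal.ofReal (C'⁻¹ * r) * volume A ≤ liou G (bxP Φ (κ z) A r)

/-- **Row SCB** (THE ABSTRACT SECTIONS; medium; from MSC, SLF, SLI). On the subtype `Shl G`: `f t x = ⟨Φ t x.1, _⟩` (`fn`), `dd' x y = dd x.1 y.1`, `κ' z a = ⟨κ z.1 a, _⟩` for `‖a‖ ≤ e1` and `z` otherwise, `F`, `τ` from `pmap` for `t = 1` (`Classical.choice`, arbitrary when the jump is larger than `e0`); `e' = min (e, e0, e1/C, 1)` (`e` from MSC), `C'` the maximum.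
`kl`: `cmp`, `zero`. `bx`: `box`. `inj`: SEC `inj` with `s' = 0`. `mle`, `lem`: MSC; `muS G B = liou G (Subtype.val '' B)` (`comap_apply`, the shell is closed). `fm`: SLI. -/
def SCB_stmt : Prop := ∀ (m : ℕ) (r1 c C e0 e1 : ℝ), 0 < r1 → 1 ≤ C → 0 < e0 → 0 < e1 → ∃ C' e' : ℝ, 0 < e' ∧ e' ≤ e0 ∧ e' ≤ e1 ∧ ∀ (Γ : Type) [Group Γ] [MulAction Γ (V (m + 1))] (K F0 : Set (V (m + 1))) (G : V (m + 1) → V (m + 1) →L[ℝ] V (m + 1)) (Φ : ℝ → P (m + 1) → P (m + 1)) (dd : P (m + 1) → P (m + 1) → ℝ) (κ : P (m + 1) → EE m → P (m + 1)),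
  GeU Γ K F0 G Φ r1 C dd → SEC c C e0 e1 {p | nrm G p = 1} dd Φ κ → ∃ (f : ℝ → Shl G → Shl G) (κ' : Shl G → EE m → Shl G) (F : Shl G → Shl G → EE m → EE m) (τ : Shl G → Shl G → EE m → ℝ),
  (∀ (t : ℝ) (x : Shl G), (f t x).1 = Φ t x.1) ∧ (∀ (z : Shl G) (a : EE m), ‖a‖ ≤ e1 → (κ' z a).1 = κ z.1 a) ∧ Sct (muS G) (fun x y => dd x.1 y.1) f (HYP c C e0) C' e' κ' F τ

/-- **Row GFI** (OUTPUT for block E; short-medium; from HBB, SCB, GSH, GGV, SLF). `liou G (BS G Φ dd T x ε) = muS G (BB _ f T ⟨x, _⟩ ε)` (`comap_apply`). -/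
def GFI_stmt : Prop := ∀ (m : ℕ) (r1 c C e0 e1 : ℝ) (Γ : Type) [Group Γ] [MulAction Γ (V (m + 1))] (K F0 : Set (V (m + 1))) (G : V (m + 1) → V (m + 1) →L[ℝ] V (m + 1)) (Φ : ℝ → P (m + 1) → P (m + 1)) (dd : P (m + 1) → P (m + 1) → ℝ) (κ : P (m + 1) → EE m → P (m + 1)),
  GeU Γ K F0 G Φ r1 C dd → SEC c C e0 e1 {p | nrm G p = 1} dd Φ κ → GVD G Φ dd ∧ SHBD G Φ dd

end

end Pool.Agent.VDG
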