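import Pool.Agent.helper82.VD.SpecH
import Pool.Agent.helper80.VD.SpecD

/-!
# MP_07c750 (QUE, weight 10), project VD, block B3 part 3: the uniform facts `GeU` for the class of metrics, `dd = dP Γ χ`

RULES as in `SpecH` (import `Pool.Agent.helper82.VD.SpecI`).
-/

set_option autoImplicit false

open MeasureTheory Filter Set Topology Pool.Agent.VDE Pool.Agent.VD
open scoped ENNReal InnerProductSpace

namespace Pool.Agent.VDG

noncomputable section

/-- **Row GUE** (`GeU` holds in the class, UNIFORMLY; short-medium; from DPP, DGR of helper80's SpecD and GIN of SpecF). The first hypothesis is helper80's assembly of `FlD` (constant depending only on the class). `r1 = 1`. `tt`, `lp`: DGR (`Φ 0 p = p`; `|t| ≤ 2`). `nlo`: both base points are in `cthickening 1 K`, where `χ = 1`, so the term `γ = 1` of the sup is `‖p - q‖` (`lft 1 p = p`, BddAbove from DPP): `‖p - q‖ ≤ dP p q`.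
`nno`: `ξ = G v` (GIN), `‖ξ‖² ≤ ‖G x‖ ⟪G x v, v⟫ ≤ B m 0 nrm²` (or `⟪G x v, v⟫ ≥ ‖v‖²/B m 0` and `‖ξ‖ ≤ ‖G x‖ ‖v‖`), `m` such that `cthickening 1 K` is in the ball `m`. `nup`: DPP, upper bound for the radius `m`, `‖ξ‖ ≤ C nrm ≤ 2 C`. `nnl`: `|nrm p - nrm q| ≤ |nrm p ² - nrm q ²| / 2` (`nrm ≥ 1`), `nrm p² = ⟪IG x ξ, ξ⟫`, `‖IG x‖ ≤ B m 0`, and `IG` is Lipschitz on the ball
(`IG x - IG y = IG x (G y - G x) IG y`, mean value inequality for `G` on the convex ball, `Cls.bd` for `n = 1`). The constant is the maximum (`FlD` is monotone in `C`: only `Dis.lo`, `Dis.up` contain it). -/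
def GUE_stmt : Prop := ∀ (d : ℕ) (Γ : Type) [Group Γ] [MulAction Γ (V d)] (K : Set (V d)) (k : ℝ) (B : ℕ → ℕ → ℝ) (χ : V d → ℝ), FdK Γ K → Ctf K χ →
  (∃ C : ℝ, ∀ (F0 : Set (V d)) (G : V d → V d →L[ℝ] V d) (Φ : ℝ → P d → P d), FDX Γ K F0 → Cls Γ K k B G → IsFlow G Φ → FlD Γ K F0 G Φ C (dP Γ χ)) →
  ∃ r1 C : ℝ, 0 < r1 ∧ 1 ≤ C ∧ ∀ (F0 : Set (V d)) (G : V d → V d →L[ℝ] V d) (Φ : ℝ → P d → P d), FDX Γ K F0 → Cls Γ K k B G → IsFlow G Φ → GeU Γ K F0 G Φ r1 C (dP Γ χ)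

end

end Pool.Agent.VDG
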